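import Pool.Agent.Lib_helper66.OneP.Num

/-!
# The disjoint union of two copies of a variety
-/

set_option autoImplicit false

open CategoryTheory AlgebraicGeometry TopologicalSpace Limits

namespace Pool.Agent.Lib_helper79.FIC

open Pool.Agent.Lib_helper55.Beil Pool.Agent.Lib_helper66.OneP

universe v

variable {k : Type} [Field k] {E : Type} [Field E] {i : ℕ}

/-- For an open and closed subvariety, restriction after push-forward is the identity. -/
def ClopenRes (T : Homology.{v} k E i) : Prop :=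
  ∀ (n : ℕ) (Z X : Var k) (a : ClosedIn Z X) (j : OpenIn Z X), a.g = j.g →
    ∀ m, T.R n j (T.P n a m) = m

section Union

variable (X : Var k)

/-- the map from the disjoint union of two copies -/
noncomputable def foldMap : X.X ⨿ X.X ⟶ X.X := coprod.desc (𝟙 _) (𝟙 _)

instance : IsFinite (foldMap X) :=
  inferInstanceAs (IsFinite (coprod.desc (𝟙 X.X) (𝟙 X.X)))

/-- The disjoint union of two copies of a variety. -/
noncomputable def dbl : Var k where
  X := X.X ⨿ X.X
  f := foldMap X ≫ X.f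
  sep := inferInstance
  lft := inferInstance
  qc := inferInstance

lemma inl_fold : (coprod.inl : X.X ⟶ X.X ⨿ X.X) ≫ foldMap X = 𝟙 _ := coprod.inl_desc _ _

lemma inr_fold : (coprod.inr : X.X ⟶ X.X ⨿ X.X) ≫ foldMap X = 𝟙 _ := coprod.inr_desc _ _

lemma compl_inl : (Set.range (coprod.inl : X.X ⟶ X.X ⨿ X.X))ᶜ =
    Set.range (coprod.inr : X.X ⟶ X.X ⨿ X.X) :=
  (isCompl_range_inl_inr X.X X.X).compl_eq

/-- the first copy, open -/
noncomputable def opn1 : OpenIn X (dbl X) where
  g := (coprod.inl : X.X ⟶ X.X ⨿ X.X)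
  comm := by
    change coprod.inl ≫ foldMap X ≫ X.f = X.f
    rw [← Category.assoc, inl_fold, Category.id_comp]
  isOpen := inferInstanceAs (IsOpenImmersion (coprod.inl : X.X ⟶ X.X ⨿ X.X))

/-- the second copy, open -/
noncomputable def opn2 : OpenIn X (dbl X) where
  g := (coprod.inr : X.X ⟶ X.X ⨿ X.X)
  comm := by
    change coprod.inr ≫ foldMap X ≫ X.f = X.f
    rw [← Category.assoc, inr_fold, Category.id_comp]
  isOpen := inferInstanceAs (IsOpenImmersion (coprod.inr : X.X ⟶ X.X ⨿ X.X))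

lemma isClosed_range_inl : IsClosed (Set.range (coprod.inl : X.X ⟶ X.X ⨿ X.X)) := by
  rw [← isOpen_compl_iff, compl_inl]
  exact (coprod.inr : X.X ⟶ X.X ⨿ X.X).isOpenEmbedding.isOpen_range

lemma isClosed_range_inr : IsClosed (Set.range (coprod.inr : X.X ⟶ X.X ⨿ X.X)) := by
  rw [← compl_inl]
  exact (coprod.inl : X.X ⟶ X.X ⨿ X.X).isOpenEmbedding.isOpen_range.isClosed_compl

/-- the first copy, closed -/
noncomputable def clo1 : ClosedIn X (dbl X) where
  g := (coprod.inl : X.X ⟶ X.X ⨿ X.X)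
  comm := (opn1 X).comm
  closed := by
    have : IsPreimmersion (coprod.inl : X.X ⟶ X.X ⨿ X.X) := inferInstance
    exact IsClosedImmersion.of_isPreimmersion (coprod.inl : X.X ⟶ X.X ⨿ X.X)
      (isClosed_range_inl X)

/-- the second copy, closed -/
noncomputable def clo2 : ClosedIn X (dbl X) where
  g := (coprod.inr : X.X ⟶ X.X ⨿ X.X)
  comm := (opn2 X).comm
  closed := by
    have : IsPreimmersion (coprod.inr : X.X ⟶ X.X ⨿ X.X) := inferInstance
    exact IsClosedImmersion.of_isPreimmersion (coprod.inr : X.X ⟶ X.X ⨿ X.X)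
      (isClosed_range_inr X)

lemma compl21 : Complementary (clo2 X) (opn1 X) := (compl_inl X).symm

lemma compl12 : Complementary (clo1 X) (opn2 X) :=
  compl_eq_comm.mp ((compl_inl X).trans rfl) |>.symm

lemma exists_pt (p : (dbl X).X) : (∃ x : X.X, (opn1 X).g x = p) ∨ ∃ x : X.X, (opn2 X).g x = p := by
  by_cases h : p ∈ Set.range (coprod.inl : X.X ⟶ X.X ⨿ X.X)
  · exact Or.inl h
  · right
    have h1 : p ∈ (Set.range (coprod.inl : X.X ⟶ X.X ⨿ X.X))ᶜ := h
    rw [compl_inl] at h1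
    exact h1

lemma dbl_dim {n : ℕ} (h : X.DimLE n) : (dbl X).DimLE n := by
  intro p
  rcases exists_pt X p with ⟨x, rfl⟩ | ⟨x, rfl⟩
  · have := (opn1 X).isOpen
    rw [dim_map (opn1 X).g (opn1 X).comm]
    exact h x
  · have := (opn2 X).isOpen
    rw [dim_map (opn2 X).g (opn2 X).comm]
    exact h x

lemma dbl_affine (h : IsAffine X.X) : IsAffine (dbl X).X :=
  inferInstanceAs (IsAffine (X.X ⨿ X.X))

lemma dbl_smooth (h : Smooth X.f) : Smooth (dbl X).f := by
  refine IsZariskiLocalAtSource.of_openCover (coprodOpenCover.{0, 0} X.X X.X) ?_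
  rintro (⟨⟨⟩⟩ | ⟨⟨⟩⟩)
  · have h1 : (coprod.inl : X.X ⟶ X.X ⨿ X.X) ≫ (dbl X).f = X.f := (opn1 X).comm
    change Smooth ((coprod.inl : X.X ⟶ X.X ⨿ X.X) ≫ (dbl X).f)
    rw [h1]
    exact h
  · have h1 : (coprod.inr : X.X ⟶ X.X ⨿ X.X) ≫ (dbl X).f = X.f := (opn2 X).comm
    change Smooth ((coprod.inr : X.X ⟶ X.X ⨿ X.X) ≫ (dbl X).f)
    rw [h1]
    exact h

end Union

end Pool.Agent.Lib_helper79.FIC
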