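import Pool.Agent.Lib_helper79.FIC.Dbl
import Pool.Agent.CUB.BR1

/-!
# Vanishing of Chow groups and of invariants
-/

set_option autoImplicit false

open CategoryTheory AlgebraicGeometry TopologicalSpace Limits

namespace Pool.Agent.Lib_helper79.FIC

open Pool.Agent.Lib_helper55.Beil Pool.Agent.Lib_helper66.OneP CUB

universe v

variable {k : Type} [Field k] {E : Type} [Field E] {i : ℕ}

/-! ## Points of the same dimension -/

/-- Every affine variety is `Spec` of an algebra of finite type. -/
theorem exists_alg (X : Var k) [IsAffine X.X] : ∃ (A : Type) (_ : CommRing A) (_ : Algebra k A)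
    (_ : Algebra.FiniteType k A), Nonempty (VIso (aff k A) X) := by
  let A : CommRingCat.{0} := Γ(X.X, ⊤)
  let ψ : CommRingCat.of k ⟶ A := Spec.preimage (X.X.isoSpec.inv ≫ X.f)
  have hψ : Spec.map ψ = X.X.isoSpec.inv ≫ X.f := Spec.map_preimage _
  have hft : ψ.hom.FiniteType := by
    have h1 : LocallyOfFiniteType (Spec.map ψ) := by
      rw [hψ]
      infer_instance
    exact (HasRingHomProperty.Spec_iff (P := @LocallyOfFiniteType)).1 h1
  let alg : Algebra k A := ψ.hom.toAlgebra
  have hft2 : Algebra.FiniteType k A := hft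
  refine ⟨A, inferInstance, alg, hft2, ⟨⟨X.X.isoSpec.symm, ?_⟩⟩⟩
  exact hψ.symm

/-- A specialisation of the same dimension is the point itself. -/
theorem eq_of_specializes (X : Var k) {x y : X.X} (h : x ⤳ y) (hd : X.dim x = X.dim y) :
    x = y := by
  obtain ⟨V, hV, hyV, -⟩ := exists_isAffineOpen_mem_and_subset (X := X.X) (x := y) (U := ⊤) trivial
  have hxV : x ∈ V := h.mem_open V.2 hyV
  have haff : IsAffine (openVar X V).X := hV
  obtain ⟨A, _, _, _, ⟨s⟩⟩ := exists_alg (openVar X V)
  have hV' := (openVarIn X V).isOpen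
  let g : (aff k A).X ⟶ X.X := s.e.hom ≫ (openVarIn X V).g
  have hg : IsOpenImmersion g := inferInstance
  have hcomm : g ≫ X.f = (aff k A).f := by
    rw [Category.assoc, (openVarIn X V).comm, s.comm]
  have hr : ∀ z : X.X, z ∈ V → ∃ z' : (aff k A).X, g z' = z := by
    intro z hz
    have h1 : z ∈ Set.range (openVarIn X V).g := by
      rw [range_openVarIn]
      exact hz
    obtain ⟨w, rfl⟩ := h1
    refine ⟨s.e.inv w, ?_⟩
    change (s.e.inv ≫ s.e.hom ≫ (openVarIn X V).g) w = _
    rw [s.e.inv_hom_id_assoc]
  obtain ⟨x', rfl⟩ := hr x hxV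
  obtain ⟨y', rfl⟩ := hr y hyV
  rw [dim_map g hcomm, dim_map g hcomm] at hd
  have h1 : x' ⤳ y' := g.isOpenEmbedding.isInducing.specializes_iff.mp h
  have h2 : ofPt x' ≤ ofPt y' := (PrimeSpectrum.le_iff_specializes _ _).mpr h1
  have h3 : ofPt x' = ofPt y' := by
    apply eq_of_le_of_rdim_eq (k := k) h2
    rw [← dim_toPt, ← dim_toPt]
    exact hd
  exact congrArg g h3

/-! ## Vanishing -/

section Vanish

variable (T : Homology.{v} k E i) (X : Var k)

lemma invDim_zero_iff : invDim T X = 0 ↔ ∀ m : T.H (2 * i) X, T.F (2 * i) X m = m → m = 0 := by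
  rw [invDim, Submodule.finrank_eq_zero, Submodule.eq_bot_iff]
  exact ⟨fun h m hm => h m ((mem_invariants T X m).mpr hm),
    fun h m hm => h m ((mem_invariants T X m).mp hm)⟩

lemma chowDim_zero_iff : chowDim E i X = 0 ↔ ∀ c : Pts i X →₀ E, c ∈ ratZero E i X := by
  rw [chowDim, rank_zero_iff, Submodule.Quotient.subsingleton_iff, Submodule.eq_top_iff']

end Vanish

/-- If there are no nonzero cycles modulo rational equivalence whenever all cycle classes vanish,
then the cycle class maps are injective. -/
theorem inj_of_clgap (T : Homology.{v} k E i) (n : ℕ)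
    (hg : ∀ X : Var k, X.DimLE n → (∀ x : Pts i X, T.cl X x = 0) → chowDim E i X = 0) (X : Var k)
    (hX : X.DimLE n) : T.Inj X := by
  rw [T.inj_iff]
  intro z hz
  obtain ⟨κ, a, ha, hspan, hlin⟩ := exists_linearIndependent' E (T.cl X)
  have hκ : Finite κ := hlin.finite
  let A : Closeds X.X := ⟨closure (Set.range fun j => (a j).1), isClosed_closure⟩
  let O : X.X.Opens := A.compl
  let j := openVarIn X O
  have hj := j.isOpen
  have hcompl := complementary_open X O
  have hrange : Set.range (closedVarIn X O.compl).g = (A : Set X.X) := by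
    rw [range_closedVarIn]
    exact compl_compl (A : Set X.X)
  have hmem : ∀ l, (a l).1 ∈ Set.range (closedVarIn X O.compl).g := by
    intro l
    rw [hrange]
    exact subset_closure ⟨l, rfl⟩
  have hU : (openVar X O).DimLE n := by
    intro x
    rw [← dim_map j.g j.comm]
    exact hX _
  -- all classes of the open subvariety vanish
  have hcl0 : ∀ x : Pts i (openVar X O), T.cl (openVar X O) x = 0 := by
    intro x
    obtain ⟨m', hm', h1⟩ := T.res_alg_surj j
      (Submodule.subset_span ⟨x, rfl⟩ : T.cl (openVar X O) x ∈ T.alg (openVar X O))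
    rw [← h1]
    rw [Homology.alg, ← hspan] at hm'
    clear h1
    induction hm' using Submodule.span_induction with
    | mem x hx =>
      obtain ⟨l, rfl⟩ := hx
      exact T.res_cl_eq_zero _ j hcompl (a l) (hmem l)
    | zero => exact map_zero _
    | add x y _ _ hx hy => rw [map_add, hx, hy, add_zero]
    | smul r x _ hx => rw [map_smul, hx, smul_zero]
  have hcz := (chowDim_zero_iff (openVar X O)).mp (hg _ hU hcl0)
  obtain ⟨ρ, hρ, hres⟩ := exists_ratZero j (resCyc j z) (hcz _)
  -- the difference is supported on the complement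
  have hsupp : ∀ p : Pts i X, (z - ρ) p ≠ 0 → p ∈ Set.range a := by
    intro p hp
    have h1 : p.1 ∈ Set.range (closedVarIn X O.compl).g := by
      rw [hcompl]
      intro h2
      obtain ⟨u, rfl⟩ := mem_range_ptsMapO j p h2
      apply hp
      have h3 : resCyc j (z - ρ) u = 0 := by
        rw [map_sub, hres, sub_self]
        rfl
      exact h3
    rw [hrange] at h1
    have h2 : p.1 ∈ ⋃ l : κ, closure {(a l).1} := by
      rw [← closure_iUnion_of_finite]
      have h3 : (⋃ l : κ, {(a l).1} : Set X.X) = Set.range fun j => (a j).1 := by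
        ext x
        simp [eq_comm]
      rw [h3]
      exact h1
    simp only [Set.mem_iUnion] at h2
    obtain ⟨l, hl⟩ := h2
    have h3 : (a l).1 ⤳ p.1 := specializes_iff_mem_closure.mpr hl
    exact ⟨l, Subtype.ext (eq_of_specializes X h3 ((a l).2.trans p.2.symm))⟩
  have hmap : Finsupp.mapDomain a (Finsupp.comapDomain a (z - ρ) ha.injOn) = z - ρ := by
    apply Finsupp.mapDomain_comapDomain a ha
    intro p hp
    exact hsupp p (Finsupp.mem_support_iff.mp hp)
  have hcl : Finsupp.linearCombination E (T.cl X) (z - ρ) = 0 := by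
    rw [map_sub, hz, T.cl_rat X ρ hρ, sub_zero]
  rw [← hmap, Finsupp.linearCombination_mapDomain] at hcl
  have h0 := (linearIndependent_iff.mp hlin) _ hcl
  rw [h0, Finsupp.mapDomain_zero] at hmap
  rw [sub_eq_zero.mp hmap.symm]
  exact hρ

/-- If on the smooth affine varieties of dimension at most `2 * i` on which all cycle classes vanish
Frobenius has no invariants, then the generalised invariants are spanned by cycle classes. -/
theorem good_of_clgap [PerfectField k] (T : Homology.{v} k E i)
    (h : ∀ X : Var k, IsAffine X.X → Smooth X.f → X.DimLE (2 * i) →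
      (∀ x : Pts i X, T.cl X x = 0) → invDim T X = 0) (X : Var k) :
    T.gen X ≤ T.alg X := by
  refine T.good_of_vanish ?_ X
  intro U hint haff hsm h1 h2 h3
  have hdim : U.DimLE (2 * i) := by
    intro x
    exact_mod_cast (dim_le_of_specializes U (genericPoint_specializes x)).trans h2
  have hid : IsOpenImmersion (𝟙 U.X) := inferInstance
  refine ⟨U, ⟨𝟙 U.X, Category.id_comp _, hid⟩, inferInstance, ?_⟩
  rw [← invDim_zero_iff]
  exact h U haff hsm hdim h3

/-- If the Chow groups of the smooth affine varieties of dimension at most `2 * i` are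
finite-dimensional, and vanish only if Frobenius has no invariants, then the generalised invariants
are spanned by cycle classes. -/
theorem good_of_gap [PerfectField k] (T : Homology.{v} k E i)
    (h : ∀ X : Var k, IsAffine X.X → Smooth X.f → X.DimLE (2 * i) →
      Module.Finite E (Chow E i X) ∧ (chowDim E i X = 0 → invDim T X = 0)) (X : Var k) :
    T.gen X ≤ T.alg X := by
  refine T.good_of_vanish ?_ X
  intro U hint haff hsm h1 h2 _
  have hdim : U.DimLE (2 * i) := by
    intro x
    exact_mod_cast (dim_le_of_specializes U (genericPoint_specializes x)).trans h2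
  obtain ⟨O, hO, hO2⟩ := exists_small U hint h1 (h U haff hsm hdim).1
  obtain ⟨V, hV, hgV, hVO⟩ := exists_isAffineOpen_mem_and_subset (x := genericPoint U.X)
    (U := O) hO
  have hop := (openVarIn U V).isOpen
  have haffV : IsAffine (openVar U V).X := hV
  have hsmV : Smooth (openVar U V).f := by
    rw [← (openVarIn U V).comm]
    infer_instance
  have hdimV : (openVar U V).DimLE (2 * i) := by
    intro x
    rw [← dim_map (openVarIn U V).g (openVarIn U V).comm]
    exact hdim _
  refine ⟨openVar U V, openVarIn U V, ⟨⟨genericPoint U.X, hgV⟩⟩, ?_⟩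
  rw [← invDim_zero_iff]
  apply (h _ haffV hsmV hdimV).2
  rw [chowDim_zero_iff]
  apply hO2 _ (openVarIn U V)
  rw [range_openVarIn]
  exact hVO

end Pool.Agent.Lib_helper79.FIC
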