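import Pool.Agent.Lib_helper79.FIC.Gap

/-!
# The bounded criterion
-/

set_option autoImplicit false

open CategoryTheory AlgebraicGeometry TopologicalSpace Limits

namespace Pool.Agent.Lib_helper79.FIC

open Pool.Agent.Lib_helper55.Beil Pool.Agent.Lib_helper66.OneP CUB

universe v

variable {k : Type} [Field k] {E : Type} [Field E] {i : ℕ}

/-! ## Cycles on two copies -/

section Cycles

variable (X : Var k)

lemma res1_push1 (z : Pts i X →₀ E) :
    resCyc (opn1 X) (Finsupp.mapDomain (ptsMap i (clo1 X)) z) = z := by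
  ext u
  rw [resCyc_apply]
  exact Finsupp.mapDomain_apply (ptsMap_injective i (clo1 X)) z u

lemma res2_push2 (z : Pts i X →₀ E) :
    resCyc (opn2 X) (Finsupp.mapDomain (ptsMap i (clo2 X)) z) = z := by
  ext u
  rw [resCyc_apply]
  exact Finsupp.mapDomain_apply (ptsMap_injective i (clo2 X)) z u

lemma res1_push2 (z : Pts i X →₀ E) :
    resCyc (opn1 X) (Finsupp.mapDomain (ptsMap i (clo2 X)) z) = 0 := by
  ext u
  rw [resCyc_apply]
  apply Finsupp.mapDomain_of_notMem_range
  rintro ⟨w, hw⟩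
  have h1 : (clo2 X).g w.1 = (opn1 X).g u.1 := congrArg Subtype.val hw
  have h2 : (clo2 X).g w.1 ∈ (Set.range (opn1 X).g)ᶜ := by
    rw [← compl21 X]
    exact ⟨_, rfl⟩
  exact h2 ⟨u.1, h1.symm⟩

lemma res2_push1 (z : Pts i X →₀ E) :
    resCyc (opn2 X) (Finsupp.mapDomain (ptsMap i (clo1 X)) z) = 0 := by
  ext u
  rw [resCyc_apply]
  apply Finsupp.mapDomain_of_notMem_range
  rintro ⟨w, hw⟩
  have h1 : (clo1 X).g w.1 = (opn2 X).g u.1 := congrArg Subtype.val hw
  have h2 : (clo1 X).g w.1 ∈ (Set.range (opn2 X).g)ᶜ := by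
    rw [← compl12 X]
    exact ⟨_, rfl⟩
  exact h2 ⟨u.1, h1.symm⟩

/-- A cycle is determined by its restrictions. -/
lemma cyc_ext (c d : Pts i (dbl X) →₀ E) (h1 : resCyc (opn1 X) c = resCyc (opn1 X) d)
    (h2 : resCyc (opn2 X) c = resCyc (opn2 X) d) : c = d := by
  ext p
  rcases exists_pt X p.1 with ⟨x, hx⟩ | ⟨x, hx⟩
  · obtain ⟨u, rfl⟩ := mem_range_ptsMapO (opn1 X) p ⟨x, hx⟩
    exact DFunLike.congr_fun h1 u
  · obtain ⟨u, rfl⟩ := mem_range_ptsMapO (opn2 X) p ⟨x, hx⟩
    exact DFunLike.congr_fun h2 u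

/-- the restrictions of cycles to the two copies -/
noncomputable def resPair : Chow E i (dbl X) →ₗ[E] Chow E i X × Chow E i X :=
  LinearMap.prod
    (Submodule.mapQ _ _ (resCyc (opn1 X)) (fun c hc => resCyc_ratZero (opn1 X) c hc))
    (Submodule.mapQ _ _ (resCyc (opn2 X)) (fun c hc => resCyc_ratZero (opn2 X) c hc))

lemma resPair_surjective : Function.Surjective (resPair (E := E) (i := i) X) := by
  rintro ⟨x, y⟩
  obtain ⟨c, rfl⟩ := (ratZero E i X).mkQ_surjective x
  obtain ⟨d, rfl⟩ := (ratZero E i X).mkQ_surjective y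
  refine ⟨(ratZero E i (dbl X)).mkQ (Finsupp.mapDomain (ptsMap i (clo1 X)) c +
    Finsupp.mapDomain (ptsMap i (clo2 X)) d), ?_⟩
  apply Prod.ext
  · change (ratZero E i X).mkQ (resCyc (opn1 X) _) = _
    rw [map_add (resCyc (opn1 X)), res1_push1, res1_push2, add_zero]
  · change (ratZero E i X).mkQ (resCyc (opn2 X) _) = _
    rw [map_add (resCyc (opn2 X)), res2_push1, res2_push2, zero_add]

lemma chowDim_dbl : chowDim E i X + chowDim E i X ≤ chowDim E i (dbl X) := by
  have h1 := LinearMap.rank_le_of_surjective (resPair (E := E) (i := i) X) (resPair_surjective X)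
  rw [rank_prod'] at h1
  exact h1

lemma chowZero_dbl (h : chowDim E i X = 0) : chowDim E i (dbl X) = 0 := by
  rw [chowDim_zero_iff] at h ⊢
  intro c
  have h1 : c = Finsupp.mapDomain (ptsMap i (clo1 X)) (resCyc (opn1 X) c) +
      Finsupp.mapDomain (ptsMap i (clo2 X)) (resCyc (opn2 X) c) := by
    apply cyc_ext
    · rw [map_add, res1_push1, res1_push2, add_zero]
    · rw [map_add, res2_push1, res2_push2, zero_add]
  rw [h1]
  exact add_mem (ratZero_map _ _ (h _)) (ratZero_map _ _ (h _))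

end Cycles

/-! ## Homology of two copies -/

section Homology

variable (T : Homology.{v} k E i) (hT : ClopenRes T) (X : Var k)

lemma inv_push {Z Y : Var k} (a : ClosedIn Z Y) (m : T.H (2 * i) Z) (hm : m ∈ invariants T Z) :
    T.push (2 * i) a m ∈ invariants T Y := by
  rw [mem_invariants] at hm ⊢
  rw [← T.push_frob, hm]

lemma inv_res {U Y : Var k} (j : OpenIn U Y) (m : T.H (2 * i) Y) (hm : m ∈ invariants T Y) :
    T.res (2 * i) j m ∈ invariants T U := by
  rw [mem_invariants] at hm ⊢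
  rw [← T.res_frob, hm]

/-- the restrictions of invariants to the two copies -/
noncomputable def invPair : invariants T (dbl X) →ₗ[E] invariants T X × invariants T X :=
  LinearMap.prod
    ((T.res (2 * i) (opn1 X)).restrict (fun m hm => inv_res T (opn1 X) m hm))
    ((T.res (2 * i) (opn2 X)).restrict (fun m hm => inv_res T (opn2 X) m hm))

include hT in
lemma invPair_surjective : Function.Surjective (invPair T X) := by
  rintro ⟨x, y⟩
  have e11 : T.res (2 * i) (opn1 X) (T.push (2 * i) (clo1 X) x.1) = x.1 :=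
    hT (2 * i) X (dbl X) (clo1 X) (opn1 X) rfl x.1
  have e22 : T.res (2 * i) (opn2 X) (T.push (2 * i) (clo2 X) y.1) = y.1 :=
    hT (2 * i) X (dbl X) (clo2 X) (opn2 X) rfl y.1
  have e12 : T.res (2 * i) (opn1 X) (T.push (2 * i) (clo2 X) y.1) = 0 :=
    (T.exact_X (2 * i) _ _ (compl21 X)).apply_apply_eq_zero _
  have e21 : T.res (2 * i) (opn2 X) (T.push (2 * i) (clo1 X) x.1) = 0 :=
    (T.exact_X (2 * i) _ _ (compl12 X)).apply_apply_eq_zero _
  refine ⟨⟨T.push (2 * i) (clo1 X) x.1 + T.push (2 * i) (clo2 X) y.1,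
    add_mem (inv_push T _ _ x.2) (inv_push T _ _ y.2)⟩, ?_⟩
  apply Prod.ext
  · apply Subtype.ext
    change T.res (2 * i) (opn1 X) (T.push (2 * i) (clo1 X) x.1 + T.push (2 * i) (clo2 X) y.1) = x.1
    rw [map_add, e11, e12, add_zero]
  · apply Subtype.ext
    change T.res (2 * i) (opn2 X) (T.push (2 * i) (clo1 X) x.1 + T.push (2 * i) (clo2 X) y.1) = y.1
    rw [map_add, e21, e22, zero_add]

include hT in
lemma invDim_dbl : invDim T X + invDim T X ≤ invDim T (dbl X) := by
  have h1 := LinearMap.finrank_le_finrank_of_surjective (f := invPair T X)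
    (invPair_surjective T hT X)
  rw [Module.finrank_prod] at h1
  exact h1

end Homology

/-! ## Bounded implies zero -/

/-- A function on varieties which doubles and is bounded is zero. -/
lemma zero_of_bounded (Pr : Var k → Prop) (hP : ∀ X, Pr X → Pr (dbl X))
    (f : Var k → Cardinal.{0})
    (hf : ∀ X, Pr X → f X + f X ≤ f (dbl X)) (C : ℕ) (hC : ∀ X, Pr X → f X ≤ C) :
    ∀ X, Pr X → f X = 0 := by
  induction C using Nat.strong_induction_on with
  | _ C ih =>
    rcases Nat.eq_zero_or_pos C with h0 | h0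
    · intro X hX
      have h1 := hC X hX
      rw [h0, Nat.cast_zero, nonpos_iff_eq_zero] at h1
      exact h1
    · refine ih (C / 2) (Nat.div_lt_self h0 one_lt_two) ?_
      intro X hX
      have h1 := (hf X hX).trans (hC _ (hP X hX))
      obtain ⟨d, hd⟩ := Cardinal.lt_aleph0.mp ((hC X hX).trans_lt Cardinal.natCast_lt_aleph0)
      rw [hd] at h1 ⊢
      have h2 : d + d ≤ C := by exact_mod_cast h1
      exact_mod_cast (by omega : d ≤ C / 2)

lemma clZero_dbl (T : Homology.{v} k E i) (X : Var k) (h : ∀ x : Pts i X, T.cl X x = 0)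
    (p : Pts i (dbl X)) : T.cl (dbl X) p = 0 := by
  rcases exists_pt X p.1 with ⟨x, hx⟩ | ⟨x, hx⟩
  · obtain ⟨u, rfl⟩ := mem_range_ptsMap (clo1 X) p ⟨x, hx⟩
    have h1 := T.push_cl (clo1 X) u (ptsMap i (clo1 X) u).2
    rw [h u, map_zero] at h1
    exact h1.symm
  · obtain ⟨u, rfl⟩ := mem_range_ptsMap (clo2 X) p ⟨x, hx⟩
    have h1 := T.push_cl (clo2 X) u (ptsMap i (clo2 X) u).2
    rw [h u, map_zero] at h1
    exact h1.symm

lemma cl_zero_of_chow (T : Homology.{v} k E i) (X : Var k) (h : chowDim E i X = 0)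
    (x : Pts i X) : T.cl X x = 0 := by
  have h1 := T.cl_rat X _ ((chowDim_zero_iff X).mp h (Finsupp.single x 1))
  rwa [Finsupp.linearCombination_single, one_smul] at h1

lemma cl_zero_of_inv (T : Homology.{v} k E i) (X : Var k) (h : invDim T X = 0)
    (x : Pts i X) : T.cl X x = 0 :=
  (invDim_zero_iff T X).mp h _ (T.frob_cl X x)

/-- injectivity -/
theorem criterion_inj [PerfectField k] (T : Homology.{v} k E i) (C : ℕ) :
    (∀ X : Var k, T.Inj X) ↔
      ∀ X : Var k, X.DimLE (2 * i + 1) → (∀ x : Pts i X, T.cl X x = 0) → chowDim E i X ≤ C := by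
  constructor
  · intro h X _ h0
    have h1 : chowDim E i X = 0 := by
      rw [chowDim_zero_iff]
      intro c
      apply (T.inj_iff X).mp (h X)
      rw [Finsupp.linearCombination_apply]
      exact Finset.sum_eq_zero fun x _ => by
        change c x • T.cl X x = 0
        rw [h0 x, smul_zero]
    rw [h1]
    exact zero_le
  · intro h
    have h' := zero_of_bounded
      (fun Y : Var k => Y.DimLE (2 * i + 1) ∧ ∀ x : Pts i Y, T.cl Y x = 0)
      (fun Y hY => ⟨dbl_dim Y hY.1, clZero_dbl T Y hY.2⟩)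
      (fun Y => chowDim E i Y) (fun Y _ => chowDim_dbl Y) C (fun Y hY => h Y hY.1 hY.2)
    have hinj : T.LowInj := fun X hX =>
      inj_of_clgap T (2 * i + 1) (fun Y hY h0 => h' Y ⟨hY, h0⟩) X hX
    exact T.inj_all hinj

lemma inv_of_bounded (T : Homology.{v} k E i) (C : ℕ) (hT : C = 0 ∨ ClopenRes T)
    (Pr : Var k → Prop) (hP : ∀ X, Pr X → Pr (dbl X)) (hC : ∀ X, Pr X → invDim T X ≤ C) (X : Var k)
    (hX : Pr X) : invDim T X = 0 := by
  rcases hT with rfl | hT
  · exact Nat.le_zero.mp (hC X hX)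
  · have h3 := zero_of_bounded Pr hP (fun Y => (invDim T Y : Cardinal.{0}))
      (fun Y _ => by exact_mod_cast invDim_dbl T hT Y) C (fun Y hY => by exact_mod_cast hC Y hY) X hX
    exact_mod_cast h3

/-- surjectivity -/
theorem criterion_surj [PerfectField k] (T : Homology.{v} k E i) (C : ℕ)
    (hT : C = 0 ∨ ClopenRes T) :
    (∀ X : Var k, T.Surj X ∧ T.Semisimple X) ↔
      ∀ X : Var k, IsAffine X.X → Smooth X.f → X.DimLE (2 * i) → (∀ x : Pts i X, T.cl X x = 0) →
        invDim T X ≤ C := by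
  constructor
  · intro h X _ _ _ h0
    rw [(invDim_zero_iff T X).mpr (T.inv_zero_of_surj (h X).1 h0)]
    exact Nat.zero_le _
  · intro h
    have h' := inv_of_bounded T C hT
      (fun Y : Var k => IsAffine Y.X ∧ Smooth Y.f ∧ Y.DimLE (2 * i) ∧ ∀ x : Pts i Y, T.cl Y x = 0)
      (fun Y hY => ⟨dbl_affine Y hY.1, dbl_smooth Y hY.2.1, dbl_dim Y hY.2.2.1,
        clZero_dbl T Y hY.2.2.2⟩)
      (fun Y hY => h Y hY.1 hY.2.1 hY.2.2.1 hY.2.2.2)
    have hg := good_of_clgap T (fun Y h1 h2 h3 h4 => h' Y ⟨h1, h2, h3, h4⟩)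
    exact fun X => ⟨T.surj_of_good X (hg X), T.semisimple_of_good X (hg X)⟩

/-- The criterion. -/
theorem criterion [PerfectField k] (T : Homology.{v} k E i) (C : ℕ) (hT : C = 0 ∨ ClopenRes T) :
    (∀ X : Var k, T.Inj X ∧ T.Surj X) ↔
      (∀ X : Var k, IsAffine X.X → Smooth X.f → X.DimLE (2 * i) →
        Module.Finite E (Chow E i X) ∧ (chowDim E i X = 0 → invDim T X ≤ C)) ∧
      (∀ X : Var k, X.DimLE (2 * i + 1) → invDim T X = 0 → chowDim E i X ≤ C) := by
  constructor
  · intro h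
    have hd : ∀ X : Var k, chowDim E i X = (invDim T X : ℕ) := fun X =>
      dim_eq T X (h X).1 (h X).2
    refine ⟨fun X _ _ _ => ⟨?_, fun h0 => ?_⟩, fun X _ h0 => ?_⟩
    · rw [← Module.rank_lt_aleph0_iff]
      exact (hd X).trans_lt Cardinal.natCast_lt_aleph0
    · have h1 := hd X
      rw [h0] at h1
      have h2 : invDim T X = 0 := by exact_mod_cast h1.symm
      omega
    · rw [hd X, h0]
      simp
  · rintro ⟨h1, h2⟩
    have h1' := inv_of_bounded T C hT
      (fun Y : Var k => IsAffine Y.X ∧ Smooth Y.f ∧ Y.DimLE (2 * i) ∧ chowDim E i Y = 0)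
      (fun Y hY => ⟨dbl_affine Y hY.1, dbl_smooth Y hY.2.1, dbl_dim Y hY.2.2.1,
        chowZero_dbl Y hY.2.2.2⟩)
      (fun Y hY => (h1 Y hY.1 hY.2.1 hY.2.2.1).2 hY.2.2.2)
    have hS : ∀ X : Var k, T.Surj X := fun X => T.surj_of_good X (good_of_gap T
      (fun Y e1 e2 e3 => ⟨(h1 Y e1 e2 e3).1, fun e4 => h1' Y ⟨e1, e2, e3, e4⟩⟩) X)
    have hI : ∀ X : Var k, T.Inj X := (criterion_inj T C).mpr fun X hX h0 =>
      h2 X hX ((invDim_zero_iff T X).mpr (T.inv_zero_of_surj (hS X) h0))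
    exact fun X => ⟨hI X, hS X⟩

/-- The criteria together. -/
theorem tfae_gap [PerfectField k] (T : Homology.{v} k E i) (C : ℕ)
    (hT : C = 0 ∨ ClopenRes T) :
    List.TFAE [
      ∀ X : Var k, T.Inj X ∧ T.Surj X,
      (∀ X : Var k, X.DimLE (2 * i + 1) → (∀ x : Pts i X, T.cl X x = 0) → chowDim E i X ≤ C) ∧
        ∀ X : Var k, IsAffine X.X → Smooth X.f → X.DimLE (2 * i) →
          (∀ x : Pts i X, T.cl X x = 0) → invDim T X ≤ C,
      (∀ X : Var k, X.DimLE (2 * i + 1) → invDim T X = 0 → chowDim E i X ≤ C) ∧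
        ∀ X : Var k, IsAffine X.X → Smooth X.f → X.DimLE (2 * i) →
          Module.Finite E (Chow E i X) ∧ (chowDim E i X = 0 → invDim T X ≤ C)] := by
  tfae_have 1 → 2 := by
    intro h
    refine ⟨(criterion_inj T C).mp fun X => (h X).1, fun X _ _ _ h0 => ?_⟩
    rw [(invDim_zero_iff T X).mpr (T.inv_zero_of_surj (h X).2 h0)]
    exact Nat.zero_le _
  tfae_have 2 → 1 := fun h X =>
    ⟨(criterion_inj T C).mpr h.1 X, ((criterion_surj T C hT).mpr h.2 X).1⟩
  tfae_have 1 → 3 := fun h => ((criterion T C hT).mp h).symm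
  tfae_have 3 → 1 := fun h => (criterion T C hT).mpr h.symm
  tfae_finish

end Pool.Agent.Lib_helper79.FIC
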